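import Pool.Agent.helper65.GD.Spec

/-!
# Row gdm:NPO (MP_ea335c_an): conjugate symmetric polynomials
-/

set_option autoImplicit false

namespace Pool.Agent.GD

open Finset Metric Filter Topology

/-- conjugate symmetric polynomials of formal degree `D` -/
def NPO_S (D : ℕ) (F : Polynomial ℂ) : Prop :=
  F.natDegree ≤ D ∧ F.reflect D = F.map (starRingEnd ℂ)

theorem NPO_mul {D E : ℕ} {F G : Polynomial ℂ} (hF : NPO_S D F) (hG : NPO_S E G) :
    NPO_S (D + E) (F * G) := by
  refine ⟨(Polynomial.natDegree_mul_le).trans (add_le_add hF.1 hG.1), ?_⟩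
  rw [Polynomial.reflect_mul _ _ hF.1 hG.1, hF.2, hG.2, Polynomial.map_mul]

theorem NPO_of (D : ℕ) (F : Polynomial ℂ) (h1 : F.natDegree ≤ D)
    (h2 : ∀ q ≤ D, F.coeff (D - q) = (starRingEnd ℂ) (F.coeff q)) : NPO_S D F := by
  refine ⟨h1, ?_⟩
  ext q
  rw [Polynomial.coeff_reflect, Polynomial.coeff_map]
  by_cases hq : q ≤ D
  · rw [Polynomial.revAt_le hq, h2 q hq]
  · rw [Polynomial.revAt_eq_self_of_lt (by omega),
      Polynomial.coeff_eq_zero_of_natDegree_lt (by omega), map_zero]

theorem NPO_X : NPO_S 2 Polynomial.X := by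
  refine NPO_of 2 _ (Polynomial.natDegree_X_le.trans (by norm_num)) ?_
  intro q hq
  interval_cases q <;> simp [Polynomial.coeff_X]

theorem NPO_fac (a : ℂ) : NPO_S 2 ((Polynomial.X - Polynomial.C a) *
    (1 - Polynomial.C ((starRingEnd ℂ) a) * Polynomial.X)) := by
  have h : (Polynomial.X - Polynomial.C a) * (1 - Polynomial.C ((starRingEnd ℂ) a) * Polynomial.X) =
      Polynomial.C (-(starRingEnd ℂ) a) * Polynomial.X ^ 2 +
        Polynomial.C (1 + a * (starRingEnd ℂ) a) * Polynomial.X + Polynomial.C (-a) := by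
    simp only [map_neg, map_add, map_mul, map_one]
    ring
  rw [h]
  refine NPO_of 2 _ Polynomial.natDegree_quadratic_le ?_
  intro q hq
  interval_cases q
  · simp [Polynomial.coeff_X, Polynomial.coeff_C, Polynomial.coeff_X_pow, Polynomial.coeff_one]
  · simp [Polynomial.coeff_X, Polynomial.coeff_C, Polynomial.coeff_X_pow, Polynomial.coeff_one]
    ring
  · simp [Polynomial.coeff_X, Polynomial.coeff_C, Polynomial.coeff_X_pow, Polynomial.coeff_one]

theorem NPO_prod {p : ℕ} (a : Fin p → ℂ) (s : Finset (Fin p)) :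
    NPO_S (2 * s.card) (∏ l ∈ s, ((Polynomial.X - Polynomial.C (a l)) *
      (1 - Polynomial.C ((starRingEnd ℂ) (a l)) * Polynomial.X))) := by
  induction s using Finset.induction_on with
  | empty =>
    rw [Finset.card_empty, Finset.prod_empty]
    refine NPO_of 0 _ (by simp) ?_
    intro q hq
    interval_cases q
    simp
  | insert l s hl ih =>
    rw [Finset.card_insert_of_notMem hl, Finset.prod_insert hl]
    have h := NPO_mul (NPO_fac (a l)) ih
    have h2 : 2 * (s.card + 1) = 2 + 2 * s.card := by ring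
    rw [h2]
    exact h

theorem NPO : NPO_stmt := by
  intro p a l₀
  have hp : 0 < p := Fin.pos l₀
  obtain ⟨F, hF⟩ : ∃ F : Polynomial ℂ, F = Polynomial.X * ∏ l ∈ univ.erase l₀,
    ((Polynomial.X - Polynomial.C (a l)) *
      (1 - Polynomial.C ((starRingEnd ℂ) (a l)) * Polynomial.X)) := ⟨_, rfl⟩
  have hS : NPO_S (2 * p) F := by
    have h := NPO_mul NPO_X (NPO_prod a (univ.erase l₀))
    rw [Finset.card_erase_of_mem (Finset.mem_univ l₀), Finset.card_univ, Fintype.card_fin] at h
    have h2 : 2 + 2 * (p - 1) = 2 * p := by omega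
    rw [h2] at h
    rw [hF]
    exact h
  have hsym : ∀ q, q ≤ 2 * p → F.coeff (2 * p - q) = (starRingEnd ℂ) (F.coeff q) := by
    intro q hq
    have h := congrArg (fun P => Polynomial.coeff P q) hS.2
    simpa [Polynomial.coeff_reflect, Polynomial.revAt_le hq] using h
  have h0 : F.coeff 0 = 0 := by
    rw [hF]
    simp
  have h2p : F.coeff (2 * p) = 0 := by
    have h := hsym 0 (Nat.zero_le _)
    rw [Nat.sub_zero, h0, map_zero] at h
    exact h
  refine ⟨fun q => F.coeff q, ⟨h0, ?_, hsym⟩, ?_⟩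
  · intro q hq
    rcases hq.eq_or_lt with h | h
    · rw [← h]
      exact h2p
    · exact Polynomial.coeff_eq_zero_of_natDegree_lt (lt_of_le_of_lt hS.1 h)
  · intro z
    have h1 : z * ∏ l ∈ univ.erase l₀, ((z - a l) * (1 - (starRingEnd ℂ) (a l) * z)) =
        F.eval z := by
      rw [hF, Polynomial.eval_mul, Polynomial.eval_X, Polynomial.eval_prod]
      congr 1
      refine Finset.prod_congr rfl fun l _ => ?_
      simp
    rw [h1, Polynomial.eval_eq_sum_range' (n := 2 * p + 1) (lt_of_le_of_lt hS.1 (by omega)),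
      Finset.sum_range_succ, h2p, zero_mul, add_zero]

end Pool.Agent.GD
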