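import Pool.Agent.helper97.GD.Spec

/-!
# Row gd:GBT (MP_37e5fa_nt): bitwise operations on the levels
-/

set_option autoImplicit false

open Filter FirstOrder FirstOrder.Language

namespace Pool.Agent.GD

open Pool.Agent.UnivT

theorem GBT_fr (U : Ultrafilter ℕ) (N : ℕ → ℕ) (hN : Tendsto N (U : Filter ℕ) atTop) (K : ℤ) (e : ℕ → ℤ)
    (he : ∀ k, e k = K) : ¬ Fr U N e := by
  rintro ⟨j, hj⟩
  have h1 : ∀ᶠ k in (U : Filter ℕ), (j * K).toNat + 1 ≤ N k := hN.eventually_ge_atTop _
  obtain ⟨k, h2, h3⟩ := (hj.and h1).exists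
  rw [he] at h2
  have := Int.self_le_toNat (j * K)
  omega

theorem GBT_per (s : ℕ → Bool) (p A : ℕ) (h : ∀ i, A ≤ i → s (i + p) = s i) (t i : ℕ) (hi : A ≤ i) :
    s (i + p * t) = s i := by
  induction t with
  | zero => simp
  | succ t ih =>
    rw [Nat.mul_succ, ← Nat.add_assoc, h _ (le_trans hi (Nat.le_add_right _ _)), ih]

theorem GBT_EP (β : Bool → Bool → Bool) (s s' : ℕ → Bool) (h : EP s) (h' : EP s') : EP (fun i => β (s i) (s' i)) := by
  obtain ⟨p, A, hp, hs⟩ := h
  obtain ⟨p', A', hp', hs'⟩ := h'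
  refine ⟨p * p', max A A', Nat.mul_pos hp hp', fun i hi => ?_⟩
  simp only
  have h1 := GBT_per s p A hs p' i ((le_max_left _ _).trans hi)
  have h2 := GBT_per s' p' A' hs' p i ((le_max_right _ _).trans hi)
  rw [mul_comm p' p] at h2
  rw [h1, h2]

theorem GBT_len (x : ℤ) (L : ℕ) (hL : (Nat.digits 2 x.natAbs).length ≤ L) : |x| < 2 ^ L := by
  have h1 : x.natAbs < 2 ^ (Nat.digits 2 x.natAbs).length := Nat.lt_base_pow_length_digits (by norm_num)
  have h2 : x.natAbs < 2 ^ L := h1.trans_le (Nat.pow_le_pow_right (by norm_num) hL)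
  rw [Int.abs_eq_natAbs]
  exact_mod_cast h2

theorem GBT (hGSM : GSM_stmt) (hGNG : GNG_stmt) (hGLV : GLV_stmt) (hGSH : GSH_stmt) (hGMN : GMN_stmt)
    (hGLO : GLO_stmt) (hGVC : GVC_stmt) (hGBS : GBS_stmt) (hBWS : BWS_stmt) : GBT_stmt := by
  intro U N hN n β f g hf hg
  obtain ⟨m1, m2, m3, -, m5, -⟩ := hGSM U N hN
  obtain ⟨g1, g2, -, -, g5, -, g7, -⟩ := hGNG U N hN
  obtain ⟨-, a2, -, a4, -, -, a7⟩ := hGLV U N hN n
  obtain ⟨b1, b2, -, b4, -, -, -⟩ := hGLV U N hN (n + 1)
  have hconst : ∀ z : ℤ, Lv U N n fun _ => z := fun z => a2 _ (m1 z)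
  -- both lists are empty
  have hsm : ∀ (D : ℕ) (c f : ℕ → ℤ), St U N n D c [] f → Sm U N (fun k => |f k|) := by
    rintro D c f ⟨hD, hc, -, hev⟩
    refine m3 c _ 1 hc ?_
    filter_upwards [hev] with k hk
    rw [sv_nil, add_zero] at hk
    rw [abs_abs, ← hk, abs_mul, Nat.abs_cast, Nat.cast_one, one_mul]
    have hD' : (1 : ℤ) ≤ D := by exact_mod_cast hD
    nlinarith [abs_nonneg (f k)]
  have h0 : ∀ (D D' : ℕ) (c c' f g : ℕ → ℤ), St U N n D c [] f → St U N n D' c' [] g →
      Lv U N (n + 1) (fun k => Int.bitwise β (f k) (g k)) := by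
    intro D D' c c' f g hf hg
    refine b2 _ (m3 (fun k => |f k| + |g k|) _ 2 (m2 _ _ (hsm D c f hf) (hsm D' c' g hg)).1 ?_)
    refine Eventually.of_forall fun k => ?_
    have h1 := hGBS β (f k) (g k)
    have h2 : |(|f k| + |g k|)| = |f k| + |g k| := abs_of_nonneg (add_nonneg (abs_nonneg _) (abs_nonneg _))
    rw [h2]
    push_cast
    linarith
  have hcore : ∀ (w : ℕ) (D D' : ℕ) (c c' : ℕ → ℤ) (l l' : List ((ℕ → ℤ) × (ℕ → ℤ))) (f g : ℕ → ℤ),
      St U N n D c l f → St U N n D' c' l' g → l.length + l'.length ≤ w →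
      Lv U N (n + 1) (fun k => Int.bitwise β (f k) (g k)) := by
    intro w
    induction w with
    | zero =>
      intro D D' c c' l l' f g hf hg hw
      have e1 : l = [] := List.length_eq_zero_iff.1 (by omega)
      have e2 : l' = [] := List.length_eq_zero_iff.1 (by omega)
      subst e1 e2
      exact h0 D D' c c' f g hf hg
    | succ w ih =>
      intro D D' c c' l l' f g hf hg hw
      by_cases hne : l ++ l' = []
      · obtain ⟨e1, e2⟩ := List.append_eq_nil_iff.1 hne
        subst e1 e2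
        exact h0 D D' c c' f g hf hg
      obtain ⟨x, hx, hmin⟩ := hGMN U (l ++ l') hne
      have hx' : x ∈ l ∨ x ∈ l' := List.mem_append.1 hx
      have hxL : Lv U N n x.2 := by
        rcases hx' with h | h
        · exact (hf.2.2.1 x h).2
        · exact (hg.2.2.1 x h).2
      by_cases hFr : Fr U N x.2
      · -- the smallest exponent is far
        obtain ⟨C, hC⟩ := hGLO U N hN n D c l f hf
        obtain ⟨C', hC'⟩ := hGLO U N hN n D' c' l' g hg
        set K : ℕ := max C C' with hK
        set E : ℕ → ℤ := fun k => x.2 k - (K : ℤ) with hE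
        have hEL : Lv U N n E := (a4 _ _ hxL (hconst K)).2.1
        have hEF : Fr U N E := (g5 _ _ hFr (g1 K)).2
        have hE0 : ∀ᶠ k in (U : Filter ℕ), 0 ≤ E k := by
          filter_upwards [g7 E (fun _ => 0) hEF (g1 0)] with k hk
          rw [abs_zero] at hk
          exact hk.le
        set ℓ : ℕ → ℕ := fun k => (Nat.digits 2 (c k).natAbs).length + (Nat.digits 2 (c' k).natAbs).length with hℓ
        have hℓN : Ng U N (fun k => (ℓ k : ℤ)) := by
          have := (g2 _ _ (m5 c hf.2.1) (m5 c' hg.2.1)).1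
          have e1 : (fun k => (ℓ k : ℤ)) = fun k => len (c k) + len (c' k) := by
            funext k
            simp only [hℓ, len]
            push_cast
            rfl
          rw [e1]
          exact this
        obtain ⟨s, hs, hs2⟩ := hC ℓ (Eventually.of_forall fun k => GBT_len (c k) (ℓ k) (Nat.le_add_right _ _))
        obtain ⟨s', hs', hs2'⟩ := hC' ℓ (Eventually.of_forall fun k => GBT_len (c' k) (ℓ k) (Nat.le_add_left _ _))
        have hb := hs2 E (fun y hy => by
          filter_upwards [hmin y (List.mem_append.2 (Or.inl hy))] with k hk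
          have : (C : ℤ) ≤ K := by exact_mod_cast le_max_left C C'
          simp only [hE]
          linarith)
        have hb' := hs2' E (fun y hy => by
          filter_upwards [hmin y (List.mem_append.2 (Or.inr hy))] with k hk
          have : (C' : ℤ) ≤ K := by exact_mod_cast le_max_right C C'
          simp only [hE]
          linarith)
        have hval := (hGVC U N hN n (fun k i => β ((f k).testBit i) ((g k).testBit i)) ℓ (fun i => β (s i) (s' i)) E
          (GBT_EP β s s' hs hs') hℓN hEL (by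
            filter_upwards [hb, hb'] with k h1 h2 i hi
            rw [h1 i hi, h2 i hi])).1
        obtain ⟨c₁, l₁, hst₁, hle₁, hlt₁⟩ := hGSH U N hN n D c l f E hf hEL hE0
        obtain ⟨c₂, l₂, hst₂, hle₂, hlt₂⟩ := hGSH U N hN n D' c' l' g E hg hEL hE0
        have hnF : ¬ Fr U N (fun k => x.2 k - E k) := GBT_fr U N hN K _ (fun k => by simp only [hE]; ring)
        have hlen : l₁.length + l₂.length ≤ w := by
          rcases hx' with h | h
          · have := hlt₁ ⟨x, h, hnF⟩
            omega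
          · have := hlt₂ ⟨x, h, hnF⟩
            omega
        have hup := ih D D' c₁ c₂ l₁ l₂ _ _ hst₁ hst₂ hlen
        have hpw := a7 E hEL
        have hprod := (b4 _ _ hpw hup).2.2
        have hsum := (b4 _ _ hval hprod).1
        refine b1 _ _ hsum (Eventually.of_forall fun k => ?_)
        exact (hBWS β (f k) (g k) (E k).toNat).symm
      · -- the smallest exponent is not far: fewer terms
        have hnF : ¬ Fr U N (fun k => x.2 k - (fun _ => (0 : ℤ)) k) := by
          simp only [sub_zero]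
          exact hFr
        rcases hx' with h | h
        · obtain ⟨c₁, l₁, hst₁, hle₁, hlt₁⟩ := hGSH U N hN n D c l f (fun _ => 0) hf (hconst 0)
            (Eventually.of_forall fun _ => le_rfl)
          simp only [Int.toNat_zero, pow_zero, Int.ediv_one] at hst₁
          have := hlt₁ ⟨x, h, hnF⟩
          exact ih D D' c₁ c' l₁ l' f g hst₁ hg (by omega)
        · obtain ⟨c₂, l₂, hst₂, hle₂, hlt₂⟩ := hGSH U N hN n D' c' l' g (fun _ => 0) hg (hconst 0)
            (Eventually.of_forall fun _ => le_rfl)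
          simp only [Int.toNat_zero, pow_zero, Int.ediv_one] at hst₂
          have := hlt₂ ⟨x, h, hnF⟩
          exact ih D D' c c₂ l l₂ f g hf hst₂ (by omega)
  obtain ⟨D, l, hD, hl, hev⟩ := hf
  obtain ⟨D', l', hD', hl', hev'⟩ := hg
  refine hcore _ D D' (fun _ => 0) (fun _ => 0) l l' f g ⟨hD, m1 0, hl, ?_⟩ ⟨hD', m1 0, hl', ?_⟩ le_rfl
  · filter_upwards [hev] with k hk
    rw [hk, zero_add]
  · filter_upwards [hev'] with k hk
    rw [hk, zero_add]

end Pool.Agent.GD
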